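import Pool.Agent.helper35.MR.SpecB

/-! # Module mr:RB (helper41) -/

set_option autoImplicit false

open Finset

namespace Pool.Agent.helper35.MR

open Pool.Agent.RRank

theorem RB_ev2 {K : Type} [Field K] {l : ℕ} (A : Fin l → Fin l → K) (u v : Fin l → K) :
    ev2 A u v = u ⬝ᵥ ((Matrix.of A).mulVec v) := by
  simp only [ev2, dotProduct, Matrix.mulVec, Matrix.of_apply, Finset.mul_sum]
  refine Finset.sum_congr rfl fun x _ => Finset.sum_congr rfl fun y _ => ?_
  ring

theorem RB : RB_stmt := by
  intro K _ l A U V h
  set M := Matrix.of A with hM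
  have h1 : Module.finrank K (V.map M.mulVecLin) ≤ Module.finrank K U.dualAnnihilator := by
    have hle : (V.map M.mulVecLin).map (dotProductEquiv K (Fin l)).toLinearMap ≤
        U.dualAnnihilator := by
      rintro φ ⟨w, ⟨v, hv, rfl⟩, rfl⟩
      rw [Submodule.mem_dualAnnihilator]
      intro u hu
      have := h u hu v hv
      rw [RB_ev2] at this
      rw [← this]
      simp only [LinearEquiv.coe_coe, dotProductEquiv_apply_apply, Matrix.mulVecLin_apply]
      rw [dotProduct_comm]
    have h2 := Submodule.finrank_mono hle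
    rwa [LinearEquiv.finrank_map_eq] at h2
  have h2 := Subspace.finrank_add_finrank_dualAnnihilator_eq U
  have h3 := LinearMap.finrank_range_add_finrank_ker (M.mulVecLin ∘ₗ V.subtype)
  have h4 : LinearMap.range (M.mulVecLin ∘ₗ V.subtype) = V.map M.mulVecLin := by
    rw [LinearMap.range_comp, Submodule.range_subtype]
  rw [h4] at h3
  have h5 : Module.finrank K (LinearMap.ker (M.mulVecLin ∘ₗ V.subtype)) ≤
      Module.finrank K (LinearMap.ker M.mulVecLin) := by
    refine LinearMap.finrank_le_finrank_of_injective (f := (V.subtype ∘ₗ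
      (LinearMap.ker (M.mulVecLin ∘ₗ V.subtype)).subtype).codRestrict _ ?_) ?_
    · rintro ⟨x, hx⟩
      exact hx
    · intro x y hxy
      have := congrArg Subtype.val hxy
      exact Subtype.ext (Subtype.ext this)
  have h6 := LinearMap.finrank_range_add_finrank_ker M.mulVecLin
  have h7 : M.rank = Module.finrank K (LinearMap.range M.mulVecLin) := rfl
  rw [Module.finrank_fin_fun] at h2 h6
  omega

end Pool.Agent.helper35.MR
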